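import Pool.Agent.W941.MG.Stm

/-!
# MG-SUPP: families in few variables
-/

set_option autoImplicit false

namespace Pool.Agent.W395.MG

open MvPolynomial Pool.Agent.W941.MG

lemma var_iff {b : ℕ} (S : Finset (Fin b)) (f : MvPolynomial (Fin b) ℂ) :
    (∀ a, coeff a f ≠ 0 → a.support ⊆ S) ↔ f ∈ supported ℂ (S : Set (Fin b)) := by
  rw [mem_supported]
  constructor
  · intro h i hi
    obtain ⟨d, hd, hid⟩ := (mem_vars_iff_mem_support i).1 (Finset.mem_coe.1 hi)
    exact Finset.mem_coe.2 (h d (mem_support_iff.1 hd) hid)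
  · intro h a ha i hi
    have : i ∈ f.vars := (mem_vars_iff_mem_support i).2 ⟨a, mem_support_iff.2 ha, hi⟩
    exact Finset.mem_coe.1 (h (Finset.mem_coe.2 this))

lemma vr_iff {b : ℕ} {N : Type} (S : Finset (Fin b)) (p : Fam b N) :
    Vr S p ↔ ∀ x, p x ∈ supported ℂ (S : Set (Fin b)) :=
  forall_congr' fun x => var_iff S (p x)

lemma aeval_mem' {A : Type} [CommRing A] [Algebra ℂ A] {σ : Type} (B : Subalgebra ℂ A) (w : σ → A)
    (hw : ∀ r, w r ∈ B) (q : MvPolynomial σ ℂ) : aeval w q ∈ B := by
  induction q using MvPolynomial.induction_on with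
  | C a =>
    rw [← algebraMap_eq, AlgHom.commutes]
    exact B.algebraMap_mem a
  | add p q hp hq =>
    rw [map_add]
    exact B.add_mem hp hq
  | mul_X p r hp =>
    rw [map_mul, aeval_X]
    exact B.mul_mem hp (hw r)

theorem supp : SuppStmt := by
  intro b N
  refine ⟨?_, ?_, ?_, ?_, ?_⟩
  · intro S T p hST hp x a ha
    exact (hp x a ha).trans hST
  · intro S σ z q hz
    rw [vr_iff]
    intro x
    have h1 : (aeval z q : Fam b N) x = aeval (fun r => z r x) q := by
      have := comp_aeval_apply (f := z) (Pi.evalAlgHom ℂ (fun _ : Fin b → N =>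
        MvPolynomial (Fin b) ℂ) x) q
      exact this
    rw [h1]
    exact aeval_mem' _ _ (fun r => (vr_iff S (z r)).1 (hz r) x) q
  · intro S σ K z hz
    rw [vr_iff]
    intro x
    rw [Finset.prod_apply]
    exact Subalgebra.prod_mem _ fun r hr => (vr_iff S (z r)).1 (hz r hr) x
  · intro S p a hp ha
    funext x
    show coeff a (p x) = 0
    by_contra h
    exact ha (hp x a h)
  · intro p q a
    funext x
    rw [Finset.sum_apply]
    show coeff a (p x * q x) = _
    rw [coeff_mul]
    rfl

end Pool.Agent.W395.MG
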